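import Pool.Agent.R448.LDMain

set_option autoImplicit false

/-!
Linear arboricity of graphs which are mapped to a graph covered by digraphs with in- and outdegrees at
most one and long directed cycles (helper447).
-/

namespace Pool.Agent.H447.LAH

open Finset SimpleGraph H931R3.LA Pool.Agent.W111.LAR Pool.Agent.R448.LD

/-- A closed walk in a digraph with indegrees at most one contains a directed cycle through its first
vertex. -/
theorem closed_walk {W : Type} (A : W → W → Prop) (hin : ∀ u v w, A u w → A v w → u = v)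
    (g : ℕ → W) (hg : ∀ k, A (g k) (g (k + 1))) (n : ℕ) (hn : 0 < n) (hgn : g n = g 0) :
    ∃ p, 0 < p ∧ p ≤ n ∧ ∃ c : ZMod p → W, Function.Injective c ∧
      (∀ j, A (c j) (c (j + 1))) ∧ c 0 = g 0 := by
  classical
  have hex : ∃ p, 0 < p ∧ g p = g 0 := ⟨n, hn, hgn⟩
  set p := Nat.find hex with hp
  obtain ⟨hp0, hpg⟩ := Nat.find_spec hex
  rw [← hp] at hp0 hpg
  have hmin : ∀ q, 0 < q → g q = g 0 → p ≤ q := fun q h1 h2 => Nat.find_min' hex ⟨h1, h2⟩
  have hback : ∀ a b : ℕ, g a = g (a + b) → g 0 = g b := by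
    intro a
    induction a with
    | zero => intro b h; simpa using h
    | succ a ih =>
      intro b h
      refine ih b (hin _ _ (g (a + 1)) (hg a) ?_)
      have h1 := hg (a + b)
      have h2 : a + b + 1 = a + 1 + b := by ring
      rw [h2, ← h] at h1
      exact h1
  have : NeZero p := ⟨hp0.ne'⟩
  refine ⟨p, hp0, hmin n hn hgn, fun j => g j.val, ?_, ?_, ?_⟩
  · intro a b hab
    have hab' : g a.val = g b.val := hab
    apply ZMod.val_injective p
    rcases lt_trichotomy a.val b.val with h | h | h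
    · exfalso
      have h1 : g a.val = g (a.val + (b.val - a.val)) := by rw [Nat.add_sub_cancel' h.le]; exact hab'
      have h2 := hmin (b.val - a.val) (by omega) (hback _ _ h1).symm
      have h3 := ZMod.val_lt b
      omega
    · exact h
    · exfalso
      have h1 : g b.val = g (b.val + (a.val - b.val)) := by
        rw [Nat.add_sub_cancel' h.le]; exact hab'.symm
      have h2 := hmin (a.val - b.val) (by omega) (hback _ _ h1).symm
      have h3 := ZMod.val_lt a
      omega
  · intro j
    show A (g j.val) (g (j + 1).val)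
    have h3 : g (j + 1).val = g (j.val + 1) := by
      have h4 : (j + 1).val = (j.val + 1) % p := by
        rw [ZMod.val_add]
        rcases Nat.lt_or_ge 1 p with h5 | h5
        · have : Fact (1 < p) := ⟨h5⟩
          rw [ZMod.val_one]
        · have h6 : ∀ x : ℕ, x % p = 0 := fun x => by
            have := Nat.mod_lt x hp0
            omega
          rw [h6, h6]
      rw [h4]
      rcases Nat.lt_or_ge (j.val + 1) p with h5 | h5
      · rw [Nat.mod_eq_of_lt h5]
      · have h6 := ZMod.val_lt j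
        have h7 : j.val + 1 = p := by omega
        rw [h7, Nat.mod_self, hpg]
    rw [h3]
    exact hg _
  · show g (0 : ZMod p).val = g 0
    rw [ZMod.val_zero]

/-- The arcs of `G` over the arcs of `A`. -/
def pb {V W : Type} (G : SimpleGraph V) (f : V → W) (A : W → W → Prop) : V → V → Prop :=
  fun u v => G.Adj u v ∧ A (f u) (f v)

section

variable {V W : Type} [Finite V] {G : SimpleGraph V} {f : V → W} {A : W → W → Prop} {d : ℕ}

theorem pb_out (hout : ∀ u v w, A u v → A u w → v = w)
    (hd : ∀ u w, {v | G.Adj u v ∧ f v = w}.ncard ≤ d) (v : V) :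
    {w | pb G f A v w}.ncard ≤ d := by
  classical
  rcases Set.eq_empty_or_nonempty {w | pb G f A v w} with h | ⟨x, hx⟩
  · rw [h, Set.ncard_empty]; exact Nat.zero_le _
  · refine (Set.ncard_le_ncard ?_ (Set.toFinite _)).trans (hd v (f x))
    intro y hy
    exact ⟨hy.1, hout _ _ _ hy.2 hx.2⟩

theorem pb_in (hin : ∀ u v w, A u w → A v w → u = v)
    (hd : ∀ u w, {v | G.Adj u v ∧ f v = w}.ncard ≤ d) (v : V) :
    {w | pb G f A w v}.ncard ≤ d := by
  classical
  rcases Set.eq_empty_or_nonempty {w | pb G f A w v} with h | ⟨x, hx⟩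
  · rw [h, Set.ncard_empty]; exact Nat.zero_le _
  · refine (Set.ncard_le_ncard ?_ (Set.toFinite _)).trans (hd v (f x))
    intro y hy
    exact ⟨hy.1.symm, hin _ _ _ hy.2 hx.2⟩

/-- The cyclic components of the labelled digraphs over `A` are long. -/
theorem csize_ge (hin : ∀ u v w, A u w → A v w → u = v) {lab : V → V → ℕ} {i : ℕ} {v : V} {ℓ : ℕ}
    (h2 : ∀ u v w, pb G f A u w → pb G f A v w → lab u w = lab v w → u = v)
    (hcyc : ∀ (n : ℕ) (c : ZMod n → W), 0 < n → Function.Injective c →
      (∀ j, A (c j) (c (j + 1))) → c 0 = f v → ℓ ≤ n)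
    (h : Cyc (lg (pb G f A) lab i) v) : ℓ ≤ csize (lg (pb G f A) lab i) v := by
  have hirr : ∀ v, ¬ pb G f A v v := fun v h => G.loopless.irrefl v h.1
  obtain ⟨n, c, hn, hle, hinj, harc, hc0⟩ := cyc_dir hirr h2 h
  obtain ⟨p, hp0, hpn, c', hc'inj, hc'arc, hc'0⟩ := closed_walk A hin (fun k => f (c (k : ZMod n)))
    (fun k => by
      have h3 := (harc (k : ZMod n)).2
      simpa using h3) n hn (by simp)
  have h3 : c' 0 = f v := by
    rw [hc'0]
    simp [hc0]
  exact ((hcyc p c' hp0 hc'inj hc'arc h3).trans hpn).trans hle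

end

/-- The data of the decomposition. -/
theorem family {V W : Type} [Finite V] (m d : ℕ) (G : SimpleGraph V) (f : V → W)
    (A : Fin m → W → W → Prop)
    (hout : ∀ i u v w, A i u v → A i u w → v = w) (hin : ∀ i u v w, A i u w → A i v w → u = v)
    (hG : ∀ u v, G.Adj u v → ∃ i, A i (f u) (f v) ∨ A i (f v) (f u))
    (hd : ∀ u w, {v | G.Adj u v ∧ f v = w}.ncard ≤ d) :
    ∃ H : Fin m × Fin d → SimpleGraph V, (∀ i v, ((H i).neighborSet v).ncard ≤ 2) ∧
      (⨆ i, H i) = G ∧ ∀ (i : Fin m) (j : Fin d) (v : V) (ℓ : ℕ),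
        (∀ (n : ℕ) (c : ZMod n → W), 0 < n → Function.Injective c →
          (∀ j, A i (c j) (c (j + 1))) → c 0 = f v → ℓ ≤ n) →
        Cyc (H (i, j)) v → ℓ ≤ csize (H (i, j)) v := by
  classical
  have hlab : ∀ i : Fin m, ∃ lab : V → V → ℕ, (∀ u v, pb G f (A i) u v → lab u v < d) ∧
      (∀ u v w, pb G f (A i) u v → pb G f (A i) u w → lab u v = lab u w → v = w) ∧
      (∀ u v w, pb G f (A i) u w → pb G f (A i) v w → lab u w = lab v w → u = v) := fun i =>
    labels (pb G f (A i)) d (pb_out (hout i) hd) (pb_in (hin i) hd)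
  choose lab h0 h1 h2 using hlab
  refine ⟨fun e => lg (pb G f (A e.1)) (lab e.1) e.2, fun e v => lg_deg (h1 e.1) (h2 e.1) e.2 v,
    ?_, fun i j v ℓ hcyc h => csize_ge (hin i) (h2 i) hcyc h⟩
  ext u v
  simp only [iSup_adj, Prod.exists]
  constructor
  · rintro ⟨i, j, _, hi | hi⟩
    · exact hi.1.1
    · exact hi.1.1.symm
  · intro h
    obtain ⟨i, hi | hi⟩ := hG u v h
    · exact ⟨i, ⟨lab i u v, h0 i u v ⟨h, hi⟩⟩, h.ne, Or.inl ⟨⟨h, hi⟩, rfl⟩⟩
    · exact ⟨i, ⟨lab i v u, h0 i v u ⟨h.symm, hi⟩⟩, h.ne, Or.inr ⟨⟨h.symm, hi⟩, rfl⟩⟩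

/-- The local criterion. -/
theorem cov_load {V W : Type} [Finite V] (m d : ℕ) (G : SimpleGraph V) (f : V → W)
    (A : Fin m → W → W → Prop)
    (hout : ∀ i u v w, A i u v → A i u w → v = w) (hin : ∀ i u v w, A i u w → A i v w → u = v)
    (hG : ∀ u v, G.Adj u v → ∃ i, A i (f u) (f v) ∨ A i (f v) (f u))
    (hd : ∀ u w, {v | G.Adj u v ∧ f v = w}.ncard ≤ d) (ℓ : Fin m → W → ℕ) (hℓ : ∀ i w, 0 < ℓ i w)
    (hcyc : ∀ i (n : ℕ) (c : ZMod n → W), 0 < n → Function.Injective c →
      (∀ j, A i (c j) (c (j + 1))) → ℓ i (c 0) ≤ n)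
    (hsum : ∀ w, ∑ i, (2 * d : ℝ) / ℓ i w ≤ 1) : Cov G (m * d + 1) := by
  classical
  obtain ⟨H, hdeg, hsup, hlen⟩ := family m d G f A hout hin hG hd
  have key := cov_of_load H hdeg (by
    intro v
    have h1 : ∀ e : Fin m × Fin d, (if Cyc (H e) v then (2 : ℝ) / csize (H e) v else 0) ≤
        2 / ℓ e.1 (f v) := by
      rintro ⟨i, j⟩
      have hpos : (0 : ℝ) < ℓ i (f v) := by exact_mod_cast hℓ i (f v)
      split_ifs with hc
      · have h3 := hlen i j v (ℓ i (f v)) (fun n c hn hinj harc h0 => by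
          rw [← h0]; exact hcyc i n c hn hinj harc) hc
        have h4 : (ℓ i (f v) : ℝ) ≤ csize (H (i, j)) v := by exact_mod_cast h3
        exact div_le_div_of_nonneg_left (by norm_num) hpos h4
      · positivity
    refine (sum_le_sum fun e _ => h1 e).trans ?_
    rw [Fintype.sum_prod_type]
    refine le_trans (le_of_eq ?_) (hsum (f v))
    refine sum_congr rfl fun i _ => ?_
    show ∑ _y : Fin d, (2 : ℝ) / ℓ i (f v) = _
    rw [sum_const, card_univ, Fintype.card_fin, nsmul_eq_mul]
    ring)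
  rw [hsup, Fintype.card_prod, Fintype.card_fin, Fintype.card_fin] at key
  exact key

/-- All directed cycles have length at least `2 t`. -/
theorem cov_blocks {V W : Type} [Finite V] (m d t : ℕ) (ht : 1 ≤ t) (G : SimpleGraph V) (f : V → W)
    (A : Fin m → W → W → Prop)
    (hout : ∀ i u v w, A i u v → A i u w → v = w) (hin : ∀ i u v w, A i u w → A i v w → u = v)
    (hG : ∀ u v, G.Adj u v → ∃ i, A i (f u) (f v) ∨ A i (f v) (f u))
    (hd : ∀ u w, {v | G.Adj u v ∧ f v = w}.ncard ≤ d)
    (hcyc : ∀ i (n : ℕ) (c : ZMod n → W), 0 < n → Function.Injective c →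
      (∀ j, A i (c j) (c (j + 1))) → 2 * t ≤ n) : Cov G (m * d + (m * d + t - 1) / t) := by
  classical
  obtain ⟨H, hdeg, hsup, hlen⟩ := family m d G f A hout hin hG hd
  have key := cov_group H t ht hdeg (fun e v h => hlen e.1 e.2 v (2 * t)
    (fun n c hn hinj harc _ => hcyc e.1 n c hn hinj harc) h) (m * d) univ (by simp)
  have h3 : (⨆ i ∈ (univ : Finset (Fin m × Fin d)), H i) = G := by
    rw [← hsup]
    simp
  rw [h3] at key
  exact key

/-- With a matching. -/
theorem cov_plus {V W : Type} [Finite V] (m d : ℕ) (G P : SimpleGraph V) (f : V → W)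
    (A : Fin m → W → W → Prop) (hP : ∀ v, (P.neighborSet v).ncard ≤ 1)
    (hout : ∀ i u v w, A i u v → A i u w → v = w) (hin : ∀ i u v w, A i u w → A i v w → u = v)
    (hG : ∀ u v, G.Adj u v → ∃ i, A i (f u) (f v) ∨ A i (f v) (f u))
    (hd : ∀ u w, {v | G.Adj u v ∧ f v = w}.ncard ≤ d)
    (hcyc : ∀ i (n : ℕ) (c : ZMod n → W), 0 < n → Function.Injective c →
      (∀ j, A i (c j) (c (j + 1))) → 12 * (m * d) ≤ n + 8) : Cov (P ⊔ G) (m * d + 1) := by
  classical
  obtain ⟨H, hdeg, hsup, hlen⟩ := family m d G f A hout hin hG hd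
  have key := cov_matching H P hdeg hP (12 * (m * d) - 8)
    (by rw [Fintype.card_prod, Fintype.card_fin, Fintype.card_fin]; omega)
    (fun e v h => hlen e.1 e.2 v (12 * (m * d) - 8)
      (fun n c hn hinj harc _ => by have := hcyc e.1 n c hn hinj harc; omega) h)
  rw [hsup, Fintype.card_prod, Fintype.card_fin, Fintype.card_fin] at key
  exact key

/-- A directed cycle of a transitive permutation contains all vertices. -/
theorem ham_cycle {W : Type} [Finite W] (σ : Equiv.Perm W) (htr : ∀ u v, ∃ k : ℕ, (σ ^ k) u = v)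
    (n : ℕ) (c : ZMod n → W) (hn : 0 < n) (harc : ∀ j, σ (c j) = c (j + 1)) :
    Nat.card W ≤ n := by
  have hk : ∀ k : ℕ, c (k : ZMod n) = (σ ^ k) (c 0) := by
    intro k
    induction k with
    | zero => simp
    | succ k ih =>
      rw [Nat.cast_succ, ← harc, ih, pow_succ', Equiv.Perm.mul_apply]
  have : NeZero n := ⟨hn.ne'⟩
  have hsurj : Function.Surjective c := by
    intro w
    obtain ⟨k, hk'⟩ := htr (c 0) w
    exact ⟨(k : ZMod n), by rw [hk, hk']⟩
  have h1 := Nat.card_le_card_of_surjective c hsurj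
  rwa [Nat.card_zmod] at h1

/-- The direct product. -/
def direct {W U : Type} (K : SimpleGraph W) (H : SimpleGraph U) : SimpleGraph (W × U) where
  Adj p q := K.Adj p.1 q.1 ∧ H.Adj p.2 q.2
  symm.symm := fun _ _ h => ⟨h.1.symm, h.2.symm⟩
  loopless.irrefl := fun _ h => h.1.ne rfl

theorem direct_fibre {W U : Type} [Finite U] (K : SimpleGraph W) (H : SimpleGraph U) {d : ℕ}
    (hd : ∀ x, (H.neighborSet x).ncard ≤ d) (p : W × U) (w : W) :
    {q | (direct K H).Adj p q ∧ q.1 = w}.ncard ≤ d := by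
  refine le_trans ?_ (hd p.2)
  refine Set.ncard_le_ncard_of_injOn Prod.snd ?_ ?_ (Set.toFinite _)
  · intro q hq
    exact hq.1.2
  · intro q hq q' hq' h
    exact Prod.ext (hq.2.trans hq'.2.symm) h

theorem direct_deg {W U : Type} [Finite W] [Finite U] (K : SimpleGraph W) (H : SimpleGraph U)
    (p : W × U) : ((direct K H).neighborSet p).ncard =
      (K.neighborSet p.1).ncard * (H.neighborSet p.2).ncard := by
  have h1 : (direct K H).neighborSet p = K.neighborSet p.1 ×ˢ H.neighborSet p.2 := by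
    ext q
    rfl
  rw [h1, Set.ncard_prod]

/-- Direct products with a graph with a decomposition into Hamilton cycles. -/
theorem cov_direct {W U : Type} [Finite W] [Finite U] (m d : ℕ) (K : SimpleGraph W)
    (H : SimpleGraph U) (σ : Fin m → Equiv.Perm W) (htr : ∀ i u v, ∃ k : ℕ, (σ i ^ k) u = v)
    (hK : ∀ u v, K.Adj u v → ∃ i, σ i u = v ∨ σ i v = u) (hd : ∀ x, (H.neighborSet x).ncard ≤ d)
    (hW : 2 * (m * d) ≤ Nat.card W) : Cov (direct K H) (m * d + 1) := by
  rcases isEmpty_or_nonempty W with hWe | hWe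
  · refine ⟨fun _ => direct K H, fun _ => ?_, ?_⟩
    · have h0 : Cov (direct K H) (m * d + (m * d + 1 - 1) / 1) := by
        refine cov_blocks m d 1 le_rfl (direct K H) Prod.fst (fun i u v => σ i u = v)
          (fun i u v w h h' => h.symm.trans h') (fun i u v w h h' => (σ i).injective (h.trans h'.symm))
          (fun u v h => hK _ _ h.1) (fun p w => direct_fibre K H hd p w) ?_
        intro i n c _ _ _
        exact (hWe.false (c 0)).elim
      have h1 : direct K H = ⊥ := by
        ext p q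
        exact (hWe.false p.1).elim
      obtain ⟨F, hF, hsup⟩ := cov_la (direct K H)
      have hz : IsLF (⊥ : SimpleGraph (W × U)) := by
        exact isLF_bot
      rw [h1]
      exact hz
    · simp
  · have hpos : 0 < Nat.card W := Nat.card_pos
    refine cov_load m d (direct K H) Prod.fst (fun i u v => σ i u = v)
      (fun i u v w h h' => h.symm.trans h') (fun i u v w h h' => (σ i).injective (h.trans h'.symm))
      (fun u v h => hK _ _ h.1) (fun p w => direct_fibre K H hd p w) (fun _ _ => Nat.card W)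
      (fun _ _ => hpos) ?_ ?_
    · intro i n c hn _ harc
      exact ham_cycle (σ i) (htr i) n c hn harc
    · intro w
      rw [sum_const, card_univ, Fintype.card_fin, nsmul_eq_mul, ← mul_div_assoc,
        div_le_one (by exact_mod_cast hpos)]
      have : ((2 * (m * d) : ℕ) : ℝ) ≤ (Nat.card W : ℝ) := by exact_mod_cast hW
      push_cast at this
      linarith

end Pool.Agent.H447.LAH
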