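import Pool.Agent.R448.LDDec
import Pool.Agent.H162R2.Sparse.Kernel

set_option autoImplicit false

/-!
List edge colouring of graphs with a homomorphism to a long odd cycle (helper447).
-/

namespace Pool.Agent.H447.LEO

open Finset

/-- The edges of `G` can be properly coloured from all lists of at least `k` colours. -/
def Choosable {V : Type} (G : SimpleGraph V) (k : ℕ) : Prop :=
  ∀ L : G.edgeSet → Finset ℕ, (∀ e, k ≤ (L e).card) →
    ∃ c : G.edgeSet → ℕ, (∀ e, c e ∈ L e) ∧ ∀ e e', G.lineGraph.Adj e e' → c e ≠ c e'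

theorem choos_of_pairs {V : Type} (G : SimpleGraph V) (k : ℕ)
    (h : ∀ L : V → V → Finset ℕ, (∀ a b, L a b = L b a) → (∀ a b, G.Adj a b → k ≤ (L a b).card) →
      ∃ c : V → V → ℕ, (∀ a b, G.Adj a b → c a b = c b a) ∧ (∀ a b, G.Adj a b → c a b ∈ L a b) ∧
        ∀ a b b', G.Adj a b → G.Adj a b' → b ≠ b' → c a b ≠ c a b') : Choosable G k := by
  classical
  intro L hL
  obtain ⟨c, hc0, hc1, hc2⟩ := h (fun a b => if h : s(a, b) ∈ G.edgeSet then L ⟨s(a, b), h⟩ else ∅)
    (by
      intro a b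
      have : s(a, b) = s(b, a) := Sym2.eq_swap
      simp only [this]) (by
      intro a b hab
      have hab' : s(a, b) ∈ G.edgeSet := hab
      simp only [dif_pos hab']
      exact hL _)
  have hsym : ∀ a b, (if G.Adj a b then c a b else 0) = (if G.Adj b a then c b a else 0) := by
    intro a b
    by_cases h1 : G.Adj a b
    · rw [if_pos h1, if_pos h1.symm, hc0 a b h1]
    · rw [if_neg h1, if_neg (fun h2 => h1 h2.symm)]
  refine ⟨fun e => Sym2.lift ⟨fun a b => if G.Adj a b then c a b else 0, hsym⟩ e.1, ?_, ?_⟩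
  · rintro ⟨e, he⟩
    induction e using Sym2.ind with
    | _ a b =>
      have h1 := hc1 a b he
      simp only [dif_pos he] at h1
      have he' : G.Adj a b := he
      simpa [he'] using h1
  · rintro ⟨e, he⟩ ⟨e', he'⟩ hadj
    rw [SimpleGraph.lineGraph_adj_iff_exists] at hadj
    obtain ⟨hne, v, hv, hv'⟩ := hadj
    have hv1 : v ∈ e := hv
    have hv2 : v ∈ e' := hv'
    obtain ⟨b, rfl⟩ := Sym2.mem_iff_exists.1 hv1
    obtain ⟨b', rfl⟩ := Sym2.mem_iff_exists.1 hv2
    have hbb : b ≠ b' := by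
      rintro rfl
      exact hne rfl
    have h1 : G.Adj v b := he
    have h2 : G.Adj v b' := he'
    simpa [h1, h2] using hc2 v b b' h1 h2 hbb

/-- The key of an edge going up, coloured `b`, at its lower end. -/
def Q (z dp : ℕ → ℕ) (i b : ℕ) : ℕ := if b < z (i + 1) then b else b + dp i - z i

/-- The key of an edge coming from below, coloured `b`, at its upper end. -/
def P (z dp : ℕ → ℕ) (D i b : ℕ) : ℕ := if b < z i then D - 1 - b else z (i + 1) + (dp i - 1 - b)

theorem QQ {z dp : ℕ → ℕ} {i b b' : ℕ} (h : z i ≤ dp i) (e : Q z dp i b = Q z dp i b') : b = b' := by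
  unfold Q at e
  split_ifs at e <;> omega

theorem PP {z dp : ℕ → ℕ} {D i b b' : ℕ} (h : z i ≤ dp i) (h1 : z (i + 1) + dp i ≤ D)
    (hb : b < dp i) (hb' : b' < dp i) (e : P z dp D i b = P z dp D i b') : b = b' := by
  unfold P at e
  split_ifs at e <;> omega

theorem QP {z dp : ℕ → ℕ} {D i b b' : ℕ} (_ : z i ≤ dp i) (h1 : z (i + 1) + dp i ≤ D)
    (hb : b + dp i < D) (hb' : b' < dp i) : Q z dp i b ≠ P z dp D i b' := by
  unfold Q P
  split_ifs <;> omega

section

variable {V : Type} (G : SimpleGraph V) (lev : V → ℕ) (r : ℕ)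

/-- arcs going up -/
def Up (u v : V) : Prop := G.Adj u v ∧ (lev v = lev u + 1 ∨ (lev u = 2 * r ∧ lev v = 0))

/-- wrapping edges -/
def Wr (u v : V) : Prop :=
  G.Adj u v ∧ ((lev u = 2 * r ∧ lev v = 0) ∨ (lev u = 0 ∧ lev v = 2 * r))

open Classical in
/-- the key of the edge `vw` at `v` -/
noncomputable def key (c : V → V → ℕ) (z dp : ℕ → ℕ) (D : ℕ) (v w : V) : ℕ :=
  if Up G lev r v w then Q z dp (lev v) (c v w) else P z dp D (lev v) (c w v)

variable {G lev r}

theorem Wr.symm {u v : V} (h : Wr G lev r u v) : Wr G lev r v u :=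
  ⟨h.1.symm, by rcases h.2 with h | h <;> tauto⟩

variable {c : V → V → ℕ} {z dp d : ℕ → ℕ} {D t : ℕ}
  (hr : 0 < r) (hlev : ∀ v, lev v ≤ 2 * r)
  (hadj : ∀ u v, G.Adj u v → Up G lev r u v ∨ Up G lev r v u)
  (hdp0 : dp 0 = d (2 * r)) (hdp : ∀ i, dp (i + 1) = d i)
  (hD : ∀ i, i ≤ 2 * r → d i + dp i ≤ D)
  (hmin : ∀ i, i ≤ 2 * r → d (2 * r) ≤ d i)
  (hz : ∀ i, z i ≤ d (2 * r)) (hz0 : z 0 = 0) (hz1 : z 1 = 0) (hzn : z (2 * r + 1) = d (2 * r))
  (hzt : ∀ i, z (i + 2) ≤ z i + t)
  (hc1 : ∀ u v, Up G lev r u v → c u v < d (lev u))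
  (hc2 : ∀ u v w, Up G lev r u v → Up G lev r u w → c u v = c u w → v = w)
  (hc3 : ∀ u v w, Up G lev r u w → Up G lev r v w → c u w = c v w → u = v)

include hdp0 hdp in
theorem dp_lev {u v : V} (h : Up G lev r u v) : dp (lev v) = d (lev u) := by
  rcases h.2 with h1 | ⟨h1, h2⟩
  · rw [h1, hdp]
  · rw [h2, h1, hdp0]

include hmin hdp0 hdp in
theorem min_dp {i : ℕ} (hi : i ≤ 2 * r) : d (2 * r) ≤ dp i := by
  rcases i with _ | i
  · rw [hdp0]
  · rw [hdp]
    exact hmin i (by omega)

include hlev hadj hdp0 hdp hD hmin hz hc1 hc2 hc3 in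
theorem key_inj {v w w' : V} (h : G.Adj v w) (h' : G.Adj v w')
    (e : key G lev r c z dp D v w = key G lev r c z dp D v w') : w = w' := by
  have hl := hlev v
  have m1 := min_dp hdp0 hdp hmin hl
  have m2 := hmin _ hl
  have m3 := hD _ hl
  have z1 := hz (lev v)
  have z2 := hz (lev v + 1)
  unfold key at e
  by_cases a : Up G lev r v w <;> by_cases b : Up G lev r v w'
  · rw [if_pos a, if_pos b] at e
    exact hc2 _ _ _ a b (QQ (by omega) e)
  · rw [if_pos a, if_neg b] at e
    have b' := (hadj v w' h').resolve_left b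
    have := hc1 _ _ a
    have h2 := hc1 _ _ b'
    rw [← dp_lev hdp0 hdp b'] at h2
    exact absurd e (QP (by omega) (by omega) (by omega) h2)
  · rw [if_neg a, if_pos b] at e
    have a' := (hadj v w h).resolve_left a
    have := hc1 _ _ b
    have h2 := hc1 _ _ a'
    rw [← dp_lev hdp0 hdp a'] at h2
    exact absurd e.symm (QP (by omega) (by omega) (by omega) h2)
  · rw [if_neg a, if_neg b] at e
    have a' := (hadj v w h).resolve_left a
    have b' := (hadj v w' h').resolve_left b
    have h1 := hc1 _ _ a'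
    rw [← dp_lev hdp0 hdp a'] at h1
    have h2 := hc1 _ _ b'
    rw [← dp_lev hdp0 hdp b'] at h2
    exact hc3 _ _ _ a' b' (PP (by omega) (by omega) h1 h2 e)

include hr hdp0 hz0 hz1 hzn hc1 in
theorem key_wrap {v w : V} (h : Wr G lev r v w) : key G lev r c z dp D v w < d (2 * r) := by
  unfold key
  rcases h.2 with ⟨h1, h2⟩ | ⟨h1, h2⟩
  · have hu : Up G lev r v w := ⟨h.1, Or.inr ⟨h1, h2⟩⟩
    have h3 := hc1 _ _ hu
    rw [if_pos hu]
    rw [h1] at h3 ⊢
    unfold Q
    rw [hzn, if_pos h3]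
    exact h3
  · have hu : Up G lev r w v := ⟨h.1.symm, Or.inr ⟨h2, h1⟩⟩
    have hn : ¬ Up G lev r v w := by
      rintro ⟨_, h3 | h3⟩ <;> omega
    have h3 := hc1 _ _ hu
    rw [if_neg hn]
    rw [h2] at h3
    rw [h1]
    unfold P
    rw [hz0, hz1, hdp0, if_neg (by omega)]
    omega

include hlev hadj hdp0 hdp hD hmin hz hz0 hz1 hzn in
theorem key_nw {v w : V} (h : G.Adj v w) (hn : ¬ Wr G lev r v w) (hv : lev v = 0 ∨ lev v = 2 * r) :
    d (2 * r) ≤ key G lev r c z dp D v w := by
  unfold key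
  have hw := hlev w
  rcases hv with hv | hv
  · have hu : Up G lev r v w := by
      rcases hadj v w h with h1 | ⟨h1, h2 | h2⟩
      · exact h1
      · omega
      · exact absurd ⟨h, Or.inr ⟨hv, h2.1⟩⟩ hn
    rw [if_pos hu, hv]
    unfold Q
    rw [hz1, hz0, hdp0, if_neg (by omega)]
    omega
  · have hu : ¬ Up G lev r v w := by
      rintro ⟨h1, h2 | h2⟩
      · omega
      · exact hn ⟨h, Or.inl h2⟩
    rw [if_neg hu, hv]
    unfold P
    have h1 := hD _ (le_refl (2 * r))
    have h2 := hz (2 * r)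
    have h3 := min_dp hdp0 hdp hmin (le_refl (2 * r))
    rw [hzn]
    split_ifs <;> omega

include hr hlev hdp hD hmin hz hdp0 hzt hc1 in
theorem key_sum' {u v : V} (h : Up G lev r u v) (hn : ¬ Wr G lev r u v) :
    key G lev r c z dp D u v + key G lev r c z dp D v u < D + t := by
  have h1 : lev v = lev u + 1 := by
    rcases h.2 with h1 | h1
    · exact h1
    · exact absurd ⟨h.1, Or.inl h1⟩ hn
  have hv : ¬ Up G lev r v u := by
    rintro ⟨_, h3 | h3⟩ <;> omega
  have h2 := hc1 _ _ h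
  have h3 := hlev v
  have h4 := hD (lev u) (by omega)
  have h5 : z (lev u + 1 + 1) ≤ z (lev u) + t := hzt (lev u)
  have h6 := min_dp hdp0 hdp hmin (i := lev u) (by omega)
  have h7 := hz (lev u)
  have h8 := hz (lev u + 1)
  unfold key
  rw [if_pos h, if_neg hv, h1]
  unfold P Q
  rw [hdp]
  split_ifs <;> omega

include hlev hadj hdp hD hmin hz hdp0 hzt hc1 hr in
theorem key_sum {u v : V} (h : G.Adj u v) (hn : ¬ Wr G lev r u v) :
    key G lev r c z dp D u v + key G lev r c z dp D v u < D + t := by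
  rcases hadj u v h with h1 | h1
  · exact key_sum' hr hlev hdp0 hdp hD hmin hz hzt hc1 h1 hn
  · rw [add_comm]
    exact key_sum' hr hlev hdp0 hdp hD hmin hz hzt hc1 h1 (fun h2 => hn h2.symm)


variable [Fintype V]

variable (G lev r) in
open Classical in
/-- the wrapping neighbours -/
noncomputable def WS (v : V) : Finset V := univ.filter (fun w => Wr G lev r v w)

open Classical in
theorem count {κ : ℕ} {v : V}
    (hinj : ∀ w w', G.Adj v w → G.Adj v w' →
      key G lev r c z dp D v w = key G lev r c z dp D v w' → w = w') :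
    (univ.filter (fun w => G.Adj v w ∧ key G lev r c z dp D v w < κ)).card ≤ κ := by
  have h := Finset.card_le_card_of_injOn (s := univ.filter (fun w => G.Adj v w ∧
    key G lev r c z dp D v w < κ)) (t := Finset.range κ) (fun w => key G lev r c z dp D v w)
    (by
      intro w hw
      rw [Finset.mem_coe, Finset.mem_filter] at hw
      rw [Finset.mem_coe, Finset.mem_range]
      exact hw.2.2)
    (by
      intro w hw w' hw' e
      rw [Finset.mem_coe, Finset.mem_filter] at hw hw'
      exact hinj w w' hw.2.1 hw'.2.1 e)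
  rwa [Finset.card_range] at h

open Classical in
include hr hlev hadj hdp0 hdp hD hmin hz hz0 hz1 hzn hc1 hc2 hc3 in
theorem ws_card (v : V) : (WS G lev r v).card ≤ d (2 * r) := by
  refine le_trans (Finset.card_le_card ?_) (count (G := G) (lev := lev) (r := r) (c := c) (z := z)
    (dp := dp) (D := D) (κ := d (2 * r)) (v := v) (fun w w' h h' e =>
      key_inj hlev hadj hdp0 hdp hD hmin hz hc1 hc2 hc3 h h' e))
  intro w hw
  unfold WS at hw
  rw [Finset.mem_filter] at hw ⊢
  exact ⟨Finset.mem_univ _, hw.2.1, key_wrap hr hdp0 hz0 hz1 hzn hc1 hw.2⟩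

open Classical in
include hr hlev hadj hdp0 hdp hD hmin hz hz0 hz1 hzn hc1 hc2 hc3 in
theorem count_nw {v w : V} (h : G.Adj v w) (hn : ¬ Wr G lev r v w) :
    (univ.filter (fun w' => G.Adj v w' ∧ ¬ Wr G lev r v w' ∧
      key G lev r c z dp D v w' < key G lev r c z dp D v w)).card + (WS G lev r v).card ≤
      key G lev r c z dp D v w := by
  rw [← Finset.card_union_of_disjoint]
  · refine le_trans (Finset.card_le_card ?_) (count (G := G) (lev := lev) (r := r) (c := c) (z := z)
      (dp := dp) (D := D) (κ := key G lev r c z dp D v w) (v := v) (fun w w' h h' e =>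
        key_inj hlev hadj hdp0 hdp hD hmin hz hc1 hc2 hc3 h h' e))
    intro w' hw'
    unfold WS at hw'
    rw [Finset.mem_union, Finset.mem_filter, Finset.mem_filter] at hw'
    rw [Finset.mem_filter]
    rcases hw' with h1 | h1
    · exact ⟨h1.1, h1.2.1, h1.2.2.2⟩
    · refine ⟨h1.1, h1.2.1, ?_⟩
      have h2 := key_wrap (z := z) (dp := dp) (D := D) hr hdp0 hz0 hz1 hzn hc1 h1.2
      have h3 : lev v = 0 ∨ lev v = 2 * r := by rcases h1.2.2 with h3 | h3 <;> tauto
      have h4 := key_nw (c := c) hlev hadj hdp0 hdp hD hmin hz hz0 hz1 hzn h hn h3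
      omega
  · rw [Finset.disjoint_left]
    intro w' h1 h2
    unfold WS at h2
    rw [Finset.mem_filter] at h1 h2
    exact h1.2.2.1 h2.2


theorem enc_lt {N a a' i i' : ℕ} (h : a * N + i < a' * N + i') (hi' : i' < N) : a ≤ a' := by
  by_contra hc
  have h1 : (a' + 1) * N ≤ a * N := Nat.mul_le_mul_right N (by omega)
  rw [add_mul, one_mul] at h1
  omega

theorem enc_inj {N a a' i i' : ℕ} (h : a * N + i = a' * N + i') (hi : i < N) (hi' : i' < N) :
    i = i' := by
  have h2 : a = a' := by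
    rcases lt_trichotomy a a' with h1 | h1 | h1
    · have h1 : (a + 1) * N ≤ a' * N := Nat.mul_le_mul_right N (by omega)
      rw [add_mul, one_mul] at h1
      omega
    · exact h1
    · have h1 : (a' + 1) * N ≤ a * N := Nat.mul_le_mul_right N (by omega)
      rw [add_mul, one_mul] at h1
      omega
  subst h2
  omega

open Classical in
include hr hlev hadj hdp0 hdp hD hmin hz hz0 hz1 hzn hzt hc1 hc2 hc3 in
theorem colour (ht : 0 < t) : Choosable G (D + t) := by
  refine choos_of_pairs G _ (fun L hLs hL => ?_)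
  obtain ⟨N, hN⟩ : ∃ N, N = Fintype.card (V × V) := ⟨_, rfl⟩
  obtain ⟨idx, hidx, hidxN⟩ : ∃ idx : V × V → ℕ, Function.Injective idx ∧ ∀ e, idx e < N := by
    refine ⟨fun e => (Fintype.equivFin (V × V) e).val, fun a b h => ?_, fun e => ?_⟩
    · exact (Fintype.equivFin (V × V)).injective (Fin.ext h)
    · rw [hN]
      exact (Fintype.equivFin (V × V) e).isLt
  have hbD : d (2 * r) + d (2 * r) ≤ D := by
    have h1 := hD _ (le_refl (2 * r))
    have h2 := min_dp hdp0 hdp hmin (le_refl (2 * r))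
    omega
  have hWS : ∀ v, (WS G lev r v).card ≤ d (2 * r) := fun v =>
    ws_card hr hlev hadj hdp0 hdp hD hmin hz hz0 hz1 hzn hc1 hc2 hc3 v
  have memWS : ∀ v w, w ∈ WS G lev r v ↔ Wr G lev r v w := by
    intro v w
    unfold WS
    simp
  -- first stage
  obtain ⟨E1, hE1⟩ : ∃ E1 : Finset (V × V), ∀ p, p ∈ E1 ↔ (Wr G lev r p.1 p.2 ∧ lev p.1 = 2 * r) :=
    ⟨univ.filter (fun p => Wr G lev r p.1 p.2 ∧ lev p.1 = 2 * r), fun p => by simp⟩
  obtain ⟨col1, h11, h12⟩ := Pool.Agent.H162R2.Sparse.list_colour idx idx hidx hidx _ E1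
    (fun e => L e.1 e.2) rfl (by
      intro e he
      have hsub : E1.filter (fun f => Pool.Agent.H162R2.Sparse.Dom idx idx f e) ⊆
          (WS G lev r e.1).image (fun w => (e.1, w)) ∪
            (WS G lev r e.2).image (fun w => (w, e.2)) := by
        intro f hf
        rw [Finset.mem_filter, hE1] at hf
        rw [Finset.mem_union, Finset.mem_image, Finset.mem_image]
        rcases hf.2 with h | h
        · left
          refine ⟨f.2, (memWS _ _).2 ?_, ?_⟩
          · rw [← h.1]; exact hf.1.1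
          · rw [← h.1]
        · right
          refine ⟨f.1, (memWS _ _).2 ?_, ?_⟩
          · rw [← h.1]; exact hf.1.1.symm
          · rw [← h.1]
      have h1 := (Finset.card_le_card hsub).trans (Finset.card_union_le _ _)
      have h2 := Finset.card_image_le (s := WS G lev r e.1) (f := fun w => (e.1, w))
      have h3 := Finset.card_image_le (s := WS G lev r e.2) (f := fun w => (w, e.2))
      have h4 := hWS e.1
      have h5 := hWS e.2
      have h6 := hL e.1 e.2 ((hE1 e).1 he).1.1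
      omega)
  let cw : V → V → ℕ := fun a b => if lev a = 2 * r then col1 (a, b) else col1 (b, a)
  have hcw : ∀ a b, Wr G lev r a b →
      (lev a = 2 * r ∧ cw a b = col1 (a, b) ∧ cw b a = col1 (a, b) ∧ (a, b) ∈ E1) ∨
      (lev a ≠ 2 * r ∧ cw a b = col1 (b, a) ∧ cw b a = col1 (b, a) ∧ (b, a) ∈ E1) := by
    intro a b h
    rcases h.2 with ⟨h1, h2⟩ | ⟨h1, h2⟩
    · left
      refine ⟨h1, if_pos h1, if_neg (by omega), (hE1 _).2 ⟨h, h1⟩⟩
    · right
      refine ⟨by omega, if_neg (by omega), if_pos h2, (hE1 _).2 ⟨h.symm, h2⟩⟩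
  have cw_sym : ∀ a b, Wr G lev r a b → cw a b = cw b a := by
    intro a b h
    rcases hcw a b h with h1 | h1
    · rw [h1.2.1, h1.2.2.1]
    · rw [h1.2.1, h1.2.2.1]
  have cw_mem : ∀ a b, Wr G lev r a b → cw a b ∈ L a b := by
    intro a b h
    rcases hcw a b h with h1 | h1
    · rw [h1.2.1]
      exact h11 _ h1.2.2.2
    · rw [h1.2.1, hLs]
      exact h11 _ h1.2.2.2
  have cw_ne : ∀ a b b', Wr G lev r a b → Wr G lev r a b' → b ≠ b' → cw a b ≠ cw a b' := by
    intro a b b' h h' hne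
    rcases hcw a b h with h1 | h1 <;> rcases hcw a b' h' with h2 | h2
    · rw [h1.2.1, h2.2.1]
      exact h12 _ h1.2.2.2 _ h2.2.2.2 (fun h3 => hne (congrArg Prod.snd h3)) (Or.inl rfl)
    · exact absurd h1.1 h2.1
    · exact absurd h2.1 h1.1
    · rw [h1.2.1, h2.2.1]
      exact h12 _ h1.2.2.2 _ h2.2.2.2 (fun h3 => hne (congrArg Prod.fst h3)) (Or.inr rfl)
  -- second stage
  have par : ∀ a b, G.Adj a b → ¬ Wr G lev r a b → (Even (lev a) ↔ ¬ Even (lev b)) := by
    intro a b h hn
    rcases hadj a b h with h1 | h1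
    · rcases h1.2 with h2 | h2
      · rw [h2, Nat.even_add_one, not_not]
      · exact absurd ⟨h, Or.inl h2⟩ hn
    · rcases h1.2 with h2 | h2
      · rw [h2, Nat.even_add_one]
      · exact absurd ⟨h, Or.inr ⟨h2.2, h2.1⟩⟩ hn
  have parw : ∀ a b, Wr G lev r a b → Even (lev a) ∧ Even (lev b) := by
    intro a b h
    rcases h.2 with ⟨h1, h2⟩ | ⟨h1, h2⟩ <;> rw [h1, h2] <;> simp
  let K : V → V → ℕ := fun v w => key G lev r c z dp D v w
  have hKinj : ∀ v w w', G.Adj v w → G.Adj v w' → K v w = K v w' → w = w' := fun v w w' h h' e =>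
    key_inj hlev hadj hdp0 hdp hD hmin hz hc1 hc2 hc3 h h' e
  have hKsum : ∀ v w, G.Adj v w → ¬ Wr G lev r v w → K v w + K w v < D + t := fun v w h h' =>
    key_sum hr hlev hadj hdp0 hdp hD hmin hz hzt hc1 h h'
  obtain ⟨Nb, hNb⟩ : ∃ Nb : V → V → Finset V, ∀ v w w', w' ∈ Nb v w ↔
      (G.Adj v w' ∧ ¬ Wr G lev r v w' ∧ K v w' < K v w) :=
    ⟨fun v w => univ.filter (fun w' => G.Adj v w' ∧ ¬ Wr G lev r v w' ∧ K v w' < K v w),
      fun v w w' => by simp⟩
  have hcount : ∀ v w, G.Adj v w → ¬ Wr G lev r v w →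
      (Nb v w).card + (WS G lev r v).card ≤ K v w := by
    intro v w h h'
    refine le_trans (Nat.add_le_add_right (Finset.card_le_card ?_) _)
      (count_nw (c := c) (z := z) (dp := dp) (D := D) hr hlev hadj hdp0 hdp hD hmin hz hz0 hz1 hzn
        hc1 hc2 hc3 h h')
    intro w' hw'
    rw [Finset.mem_filter]
    exact ⟨Finset.mem_univ _, (hNb _ _ _).1 hw'⟩
  let W : V → Finset ℕ := fun v => (WS G lev r v).image (cw v)
  have hW : ∀ v, (W v).card ≤ (WS G lev r v).card := fun v => Finset.card_image_le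
  obtain ⟨E2, hE2⟩ : ∃ E2 : Finset (V × V), ∀ p, p ∈ E2 ↔
      (G.Adj p.1 p.2 ∧ Even (lev p.1) ∧ ¬ Even (lev p.2)) :=
    ⟨univ.filter (fun p => G.Adj p.1 p.2 ∧ Even (lev p.1) ∧ ¬ Even (lev p.2)), fun p => by simp⟩
  have hE2w : ∀ p ∈ E2, ¬ Wr G lev r p.1 p.2 := fun p hp h =>
    ((hE2 p).1 hp).2.2 (parw _ _ h).2
  obtain ⟨col2, h21, h22⟩ := Pool.Agent.H162R2.Sparse.list_colour
    (fun e => K e.1 e.2 * N + idx e) (fun e => K e.2 e.1 * N + idx e)
    (fun e e' h => hidx (enc_inj h (hidxN e) (hidxN e')))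
    (fun e e' h => hidx (enc_inj h (hidxN e) (hidxN e'))) _ E2
    (fun e => L e.1 e.2 \ (W e.1 ∪ W e.2)) rfl (by
      intro e he
      have hadje := ((hE2 e).1 he).1
      have hnw := hE2w e he
      have hnw' : ¬ Wr G lev r e.2 e.1 := fun h => hnw h.symm
      have hsub : E2.filter (fun f => Pool.Agent.H162R2.Sparse.Dom
          (fun e => K e.1 e.2 * N + idx e) (fun e => K e.2 e.1 * N + idx e) f e) ⊆
          (Nb e.1 e.2).image (fun w => (e.1, w)) ∪ (Nb e.2 e.1).image (fun w => (w, e.2)) := by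
        intro f hf
        rw [Finset.mem_filter] at hf
        obtain ⟨hfE, hf2⟩ := hf
        have hadjf := ((hE2 f).1 hfE).1
        have hnwf := hE2w f hfE
        rw [Finset.mem_union, Finset.mem_image, Finset.mem_image]
        rcases hf2 with ⟨h1, h2⟩ | ⟨h1, h2⟩
        · left
          refine ⟨f.2, (hNb _ _ _).2 ⟨?_, ?_, ?_⟩, ?_⟩
          · rw [← h1]; exact hadjf
          · rw [← h1]; exact hnwf
          · have h3 := enc_lt h2 (hidxN e)
            rw [h1] at h3
            rcases Nat.lt_or_ge (K e.1 f.2) (K e.1 e.2) with h4 | h4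
            · exact h4
            · exfalso
              have h5 := hKinj e.1 f.2 e.2 (by rw [← h1]; exact hadjf) hadje (le_antisymm h3 h4)
              have h6 : f = e := Prod.ext h1 h5
              rw [h6] at h2
              exact lt_irrefl _ h2
          · rw [← h1]
        · right
          refine ⟨f.1, (hNb _ _ _).2 ⟨?_, ?_, ?_⟩, ?_⟩
          · rw [← h1]; exact hadjf.symm
          · rw [← h1]; exact fun h => hnwf h.symm
          · have h3 := enc_lt h2 (hidxN e)
            rw [h1] at h3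
            rcases Nat.lt_or_ge (K e.2 f.1) (K e.2 e.1) with h4 | h4
            · exact h4
            · exfalso
              have h5 := hKinj e.2 f.1 e.1 (by rw [← h1]; exact hadjf.symm) hadje.symm
                (le_antisymm h3 h4)
              have h6 : f = e := Prod.ext h5 h1
              rw [h6] at h2
              exact lt_irrefl _ h2
          · rw [← h1]
      have h1 := (Finset.card_le_card hsub).trans (Finset.card_union_le _ _)
      have h2 := Finset.card_image_le (s := Nb e.1 e.2) (f := fun w => (e.1, w))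
      have h3 := Finset.card_image_le (s := Nb e.2 e.1) (f := fun w => (w, e.2))
      have h4 := hcount e.1 e.2 hadje hnw
      have h5 := hcount e.2 e.1 hadje.symm hnw'
      have h6 := hKsum e.1 e.2 hadje hnw
      have h7 := hL e.1 e.2 hadje
      have h8 := Finset.le_card_sdiff (W e.1 ∪ W e.2) (L e.1 e.2)
      have h9 := Finset.card_union_le (W e.1) (W e.2)
      have h10 := hW e.1
      have h11 := hW e.2
      omega)
  let cn : V → V → ℕ := fun a b => if Even (lev a) then col2 (a, b) else col2 (b, a)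
  have hcn : ∀ a b, G.Adj a b → ¬ Wr G lev r a b →
      (Even (lev a) ∧ cn a b = col2 (a, b) ∧ cn b a = col2 (a, b) ∧ (a, b) ∈ E2) ∨
      (¬ Even (lev a) ∧ cn a b = col2 (b, a) ∧ cn b a = col2 (b, a) ∧ (b, a) ∈ E2) := by
    intro a b h hn
    have h1 := par a b h hn
    by_cases h2 : Even (lev a)
    · left
      have h3 := h1.1 h2
      exact ⟨h2, if_pos h2, if_neg h3, (hE2 _).2 ⟨h, h2, h3⟩⟩
    · right
      have h3 : Even (lev b) := by
        by_contra h4
        exact h2 (h1.2 h4)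
      exact ⟨h2, if_neg h2, if_pos h3, (hE2 _).2 ⟨h.symm, h3, h2⟩⟩
  have cn_sym : ∀ a b, G.Adj a b → ¬ Wr G lev r a b → cn a b = cn b a := by
    intro a b h hn
    rcases hcn a b h hn with h1 | h1
    · rw [h1.2.1, h1.2.2.1]
    · rw [h1.2.1, h1.2.2.1]
  have cn_mem : ∀ a b, G.Adj a b → ¬ Wr G lev r a b → cn a b ∈ L a b ∧ cn a b ∉ W a := by
    intro a b h hn
    rcases hcn a b h hn with h1 | h1
    · have h2 := h21 _ h1.2.2.2
      rw [h1.2.1]
      rw [Finset.mem_sdiff, Finset.mem_union] at h2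
      exact ⟨h2.1, fun h3 => h2.2 (Or.inl h3)⟩
    · have h2 := h21 _ h1.2.2.2
      rw [h1.2.1, hLs a b]
      rw [Finset.mem_sdiff, Finset.mem_union] at h2
      exact ⟨h2.1, fun h3 => h2.2 (Or.inr h3)⟩
  have cn_ne : ∀ a b b', G.Adj a b → ¬ Wr G lev r a b → G.Adj a b' → ¬ Wr G lev r a b' → b ≠ b' →
      cn a b ≠ cn a b' := by
    intro a b b' h hn h' hn' hne
    rcases hcn a b h hn with h1 | h1 <;> rcases hcn a b' h' hn' with h2 | h2
    · rw [h1.2.1, h2.2.1]
      exact h22 _ h1.2.2.2 _ h2.2.2.2 (fun h3 => hne (congrArg Prod.snd h3)) (Or.inl rfl)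
    · exact absurd h1.1 h2.1
    · exact absurd h2.1 h1.1
    · rw [h1.2.1, h2.2.1]
      exact h22 _ h1.2.2.2 _ h2.2.2.2 (fun h3 => hne (congrArg Prod.fst h3)) (Or.inr rfl)
  have mixed : ∀ a b b', Wr G lev r a b → G.Adj a b' → ¬ Wr G lev r a b' → cw a b ≠ cn a b' := by
    intro a b b' h h' hn' heq
    apply (cn_mem a b' h' hn').2
    rw [← heq]
    exact Finset.mem_image_of_mem _ ((memWS _ _).2 h)
  refine ⟨fun a b => if Wr G lev r a b then cw a b else cn a b, ?_, ?_, ?_⟩
  · intro a b h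
    by_cases h1 : Wr G lev r a b
    · simp only [if_pos h1, if_pos h1.symm]
      exact cw_sym a b h1
    · have h2 : ¬ Wr G lev r b a := fun h2 => h1 h2.symm
      simp only [if_neg h1, if_neg h2]
      exact cn_sym a b h h1
  · intro a b h
    by_cases h1 : Wr G lev r a b
    · simp only [if_pos h1]
      exact cw_mem a b h1
    · simp only [if_neg h1]
      exact (cn_mem a b h h1).1
  · intro a b b' h h' hne
    by_cases h1 : Wr G lev r a b <;> by_cases h2 : Wr G lev r a b'
    · simp only [if_pos h1, if_pos h2]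
      exact cw_ne a b b' h1 h2 hne
    · simp only [if_pos h1, if_neg h2]
      exact mixed a b b' h1 h' h2
    · simp only [if_neg h1, if_pos h2]
      exact (mixed a b' b h2 h h1).symm
    · simp only [if_neg h1, if_neg h2]
      exact cn_ne a b b' h h1 h' h2 hne

end

end Pool.Agent.H447.LEO
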