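import Pool.Agent.H447.LEO

set_option autoImplicit false

namespace Pool.Agent.H447.LEO

open Finset

theorem main {V : Type} [Finite V] (G : SimpleGraph V) (r t D : ℕ) (hr : 0 < r) (ht : 0 < t)
    (f : V → ZMod (2 * r + 1)) (d : ZMod (2 * r + 1) → ℕ)
    (hf : ∀ u v, G.Adj u v → f v = f u + 1 ∨ f u = f v + 1)
    (hup : ∀ u, {v | G.Adj u v ∧ f v = f u + 1}.ncard ≤ d (f u))
    (hdown : ∀ u, {v | G.Adj u v ∧ f u = f v + 1}.ncard ≤ d (f u - 1))
    (hD : ∀ i, d (i - 1) + d i ≤ D) (hex : ∃ i, d i ≤ r * t) : Choosable G (D + t) := by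
  classical
  have := Fintype.ofFinite V
  obtain ⟨j, hj⟩ := Finite.exists_min d
  have hjt : d j ≤ r * t := by
    obtain ⟨i, hi⟩ := hex
    exact (hj i).trans hi
  have hn0 : ((2 * r + 1 : ℕ) : ZMod (2 * r + 1)) = 0 := ZMod.natCast_self _
  have hn1 : (2 * r : ZMod (2 * r + 1)) + 1 = 0 := by
    rw [← hn0]; push_cast; rfl
  let lev : V → ℕ := fun v => (f v - (j + 1)).val
  have hlevc : ∀ v, ((lev v : ℕ) : ZMod (2 * r + 1)) = f v - (j + 1) := fun v => by
    show (((f v - (j + 1)).val : ℕ) : ZMod (2 * r + 1)) = f v - (j + 1)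
    rw [ZMod.natCast_val, ZMod.cast_id]
  have hlev : ∀ v, lev v ≤ 2 * r := fun v => by
    have := ZMod.val_lt (f v - (j + 1))
    show (f v - (j + 1)).val ≤ 2 * r
    omega
  have hupiff : ∀ u v, Up G lev r u v ↔ (G.Adj u v ∧ f v = f u + 1) := by
    intro u v
    constructor
    · rintro ⟨h, h1 | ⟨h1, h2⟩⟩
      · refine ⟨h, ?_⟩
        have h2 := congrArg (fun k : ℕ => (k : ZMod (2 * r + 1))) h1
        simp only [Nat.cast_add, Nat.cast_one] at h2
        rw [hlevc, hlevc] at h2
        linear_combination h2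
      · refine ⟨h, ?_⟩
        have h3 := hlevc u
        have h4 := hlevc v
        rw [h1] at h3
        rw [h2] at h4
        push_cast at h3 h4
        linear_combination h3 - h4 - hn1
    · rintro ⟨h, h1⟩
      refine ⟨h, ?_⟩
      have h2 : f v - (j + 1) = (f u - (j + 1)) + 1 := by rw [h1]; ring
      have h3 : lev v = (lev u + 1) % (2 * r + 1) := by
        show (f v - (j + 1)).val = ((f u - (j + 1)).val + 1) % (2 * r + 1)
        rw [h2, ZMod.val_add]
        have : Fact (1 < 2 * r + 1) := ⟨by omega⟩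
        rw [ZMod.val_one]
      have h4 := hlev u
      rcases Nat.lt_or_ge (lev u) (2 * r) with h5 | h5
      · left
        rw [h3, Nat.mod_eq_of_lt (by omega)]
      · right
        have h6 : lev u = 2 * r := le_antisymm h4 h5
        refine ⟨h6, ?_⟩
        rw [h3, h6, Nat.mod_self]
  let d' : ℕ → ℕ := fun i => d (j + 1 + (i : ZMod (2 * r + 1)))
  let dp : ℕ → ℕ := fun i => d (j + (i : ZMod (2 * r + 1)))
  have hd2r : d' (2 * r) = d j := by
    show d (j + 1 + ((2 * r : ℕ) : ZMod (2 * r + 1))) = d j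
    congr 1
    push_cast
    linear_combination hn1
  have hd'lev : ∀ u, d' (lev u) = d (f u) := fun u => by
    show d (j + 1 + ((lev u : ℕ) : ZMod (2 * r + 1))) = d (f u)
    rw [hlevc]
    congr 1
    ring
  let z : ℕ → ℕ := fun i => min (d j) (t * (i / 2))
  have hlab : ∀ a : ZMod (2 * r + 1), ∃ lab : V → V → ℕ,
      (∀ u v, (G.Adj u v ∧ f v = f u + 1 ∧ f u = a) → lab u v < d a) ∧
      (∀ u v w, (G.Adj u v ∧ f v = f u + 1 ∧ f u = a) → (G.Adj u w ∧ f w = f u + 1 ∧ f u = a) →
        lab u v = lab u w → v = w) ∧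
      (∀ u v w, (G.Adj u w ∧ f w = f u + 1 ∧ f u = a) → (G.Adj v w ∧ f w = f v + 1 ∧ f v = a) →
        lab u w = lab v w → u = v) := by
    intro a
    refine Pool.Agent.R448.LD.labels (fun u v => G.Adj u v ∧ f v = f u + 1 ∧ f u = a) (d a) ?_ ?_
    · intro v
      by_cases h : f v = a
      · rw [← h]
        refine le_trans (Set.ncard_le_ncard ?_ (Set.toFinite _)) (hup v)
        intro w hw
        exact ⟨hw.1, hw.2.1⟩
      · have : {w | G.Adj v w ∧ f w = f v + 1 ∧ f v = a} = ∅ := by
          ext w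
          simp only [Set.mem_ofPred_eq, Set.mem_empty_iff_false, iff_false]
          exact fun h1 => h h1.2.2
        rw [this, Set.ncard_empty]
        exact Nat.zero_le _
    · intro v
      by_cases h : f v - 1 = a
      · rw [← h]
        refine le_trans (Set.ncard_le_ncard ?_ (Set.toFinite _)) (hdown v)
        intro w hw
        exact ⟨hw.1.symm, hw.2.1⟩
      · have : {w | G.Adj w v ∧ f v = f w + 1 ∧ f w = a} = ∅ := by
          ext w
          simp only [Set.mem_ofPred_eq, Set.mem_empty_iff_false, iff_false]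
          intro h1
          apply h
          rw [h1.2.1, ← h1.2.2]
          ring
        rw [this, Set.ncard_empty]
        exact Nat.zero_le _
  choose lab l1 l2 l3 using hlab
  refine colour (G := G) (lev := lev) (r := r) (c := fun u v => lab (f u) u v) (z := z) (dp := dp)
    (d := d') (D := D) (t := t) hr hlev ?_ ?_ ?_ ?_ ?_ ?_ ?_ ?_ ?_ ?_ ?_ ?_ ?_ ht
  · intro u v h
    rcases hf u v h with h1 | h1
    · exact Or.inl ((hupiff u v).2 ⟨h, h1⟩)
    · exact Or.inr ((hupiff v u).2 ⟨h.symm, h1⟩)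
  · rw [hd2r]
    show d (j + ((0 : ℕ) : ZMod (2 * r + 1))) = d j
    rw [Nat.cast_zero, add_zero]
  · intro i
    show d (j + ((i + 1 : ℕ) : ZMod (2 * r + 1))) = d (j + 1 + (i : ZMod (2 * r + 1)))
    congr 1
    push_cast
    ring
  · intro i _
    have h1 := hD (j + 1 + (i : ZMod (2 * r + 1)))
    have h2 : j + 1 + (i : ZMod (2 * r + 1)) - 1 = j + (i : ZMod (2 * r + 1)) := by ring
    rw [h2, add_comm] at h1
    exact h1
  · intro i _
    rw [hd2r]
    exact hj _
  · intro i
    rw [hd2r]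
    exact min_le_left _ _
  · show min (d j) (t * (0 / 2)) = 0
    simp
  · show min (d j) (t * (1 / 2)) = 0
    simp
  · rw [hd2r]
    show min (d j) (t * ((2 * r + 1) / 2)) = d j
    have h1 : (2 * r + 1) / 2 = r := by omega
    rw [h1, mul_comm]
    exact min_eq_left hjt
  · intro i
    show min (d j) (t * ((i + 2) / 2)) ≤ min (d j) (t * (i / 2)) + t
    have h1 : (i + 2) / 2 = i / 2 + 1 := by omega
    rw [h1, mul_add, mul_one]
    generalize t * (i / 2) = x
    omega
  · intro u v h
    have h1 := (hupiff u v).1 h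
    show lab (f u) u v < d' (lev u)
    rw [hd'lev]
    exact l1 (f u) u v ⟨h1.1, h1.2, rfl⟩
  · intro u v w h h' e
    have h1 := (hupiff u v).1 h
    have h2 := (hupiff u w).1 h'
    exact l2 (f u) u v w ⟨h1.1, h1.2, rfl⟩ ⟨h2.1, h2.2, rfl⟩ e
  · intro u v w h h' e
    have h1 := (hupiff u w).1 h
    have h2 := (hupiff v w).1 h'
    have h3 : f v = f u := by
      have h4 := h1.2.symm.trans h2.2
      linear_combination -h4
    have e' : lab (f u) u w = lab (f v) v w := e
    rw [h3] at e'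
    exact l3 (f u) u v w ⟨h1.1, h1.2, rfl⟩ ⟨h2.1, h2.2, h3⟩ e'

/-- Constant lists. -/
theorem colorable_of_choosable {V : Type} {G : SimpleGraph V} {k : ℕ} (h : Choosable G k) :
    G.lineGraph.Colorable k := by
  obtain ⟨c, hc1, hc2⟩ := h (fun _ => Finset.range k) (fun _ => by rw [Finset.card_range])
  exact ⟨SimpleGraph.Coloring.mk (fun e => ⟨c e, Finset.mem_range.1 (hc1 e)⟩)
    (fun {e e'} hadj heq => hc2 e e' hadj (congrArg Fin.val heq))⟩

theorem lec {V : Type} {G : SimpleGraph V} {D : ℕ} (h : Choosable G (D + 1))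
    (hn : ¬ G.lineGraph.Colorable D) (k : ℕ) : G.lineGraph.Colorable k ↔ Choosable G k := by
  refine ⟨fun hk L hL => h L (fun e => le_trans ?_ (hL e)), colorable_of_choosable⟩
  by_contra h1
  exact hn (hk.mono (by omega))

/-- A `D`-regular graph of odd order has no proper edge colouring with `D` colours. -/
theorem odd_order {V : Type} [Finite V] {G : SimpleGraph V} {D : ℕ} (hpos : 0 < D)
    (hreg : ∀ v, (G.neighborSet v).ncard = D) (hodd : Odd (Nat.card V)) :
    ¬ G.lineGraph.Colorable D := by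
  classical
  have := Fintype.ofFinite V
  rintro ⟨C⟩
  have key : ∀ v, ∃ w, ∃ h : G.Adj v w, C ⟨s(v, w), h⟩ = (⟨0, hpos⟩ : Fin D) := by
    intro v
    let φ : G.neighborSet v → Fin D := fun w => C ⟨s(v, w.1), w.2⟩
    have hφ : Function.Injective φ := by
      intro w w' h
      by_contra hne
      have hne' : w.1 ≠ w'.1 := fun h1 => hne (Subtype.ext h1)
      have hadj : G.lineGraph.Adj (⟨s(v, w.1), w.2⟩ : G.edgeSet) ⟨s(v, w'.1), w'.2⟩ := by
        rw [SimpleGraph.lineGraph_adj_iff_exists]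
        refine ⟨fun h1 => hne' ?_, v, Sym2.mem_mk_left _ _, Sym2.mem_mk_left _ _⟩
        have h2 : s(v, w.1) = s(v, w'.1) := congrArg Subtype.val h1
        exact Sym2.congr_right.1 h2
      exact C.valid hadj h
    have hcard : Fintype.card (G.neighborSet v) = Fintype.card (Fin D) := by
      rw [Fintype.card_fin, ← Nat.card_eq_fintype_card]
      exact hreg v
    obtain ⟨w, hw⟩ := ((Fintype.bijective_iff_injective_and_card φ).2 ⟨hφ, hcard⟩).2 ⟨0, hpos⟩
    exact ⟨w.1, w.2, hw⟩
  choose σ hσ hC using key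
  have huniq : ∀ v w (h : G.Adj v w), C ⟨s(v, w), h⟩ = (⟨0, hpos⟩ : Fin D) → w = σ v := by
    intro v w h h1
    by_contra hne
    have hadj : G.lineGraph.Adj (⟨s(v, w), h⟩ : G.edgeSet) ⟨s(v, σ v), hσ v⟩ := by
      rw [SimpleGraph.lineGraph_adj_iff_exists]
      refine ⟨fun h1 => hne ?_, v, Sym2.mem_mk_left _ _, Sym2.mem_mk_left _ _⟩
      have h2 : s(v, w) = s(v, σ v) := congrArg Subtype.val h1
      exact Sym2.congr_right.1 h2
    exact C.valid hadj (h1.trans (hC v).symm)
  have hinv : ∀ v, σ (σ v) = v := by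
    intro v
    refine (huniq (σ v) v (hσ v).symm ?_).symm
    rw [← hC v]
    congr 1
    exact Subtype.ext Sym2.eq_swap
  have hsum : (∑ _v : V, (1 : ZMod 2)) = 0 := by
    refine Finset.sum_involution (fun v _ => σ v) ?_ ?_ ?_ ?_
    · intro v _
      decide
    · intro v _ _
      exact (hσ v).ne'
    · intro v _
      exact Finset.mem_univ _
    · intro v _
      exact hinv v
  rw [Finset.sum_const, Finset.card_univ, nsmul_eq_mul, mul_one] at hsum
  rw [Nat.card_eq_fintype_card] at hodd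
  have h3 := (ZMod.natCast_eq_zero_iff_even).1 hsum
  exact (Nat.not_even_iff_odd.2 hodd) h3

end Pool.Agent.H447.LEO
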